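import Pool.Agent.Helper97.Ku.GoalsC

namespace Pool.Agent.Helper97.Ku.PkNL

open Set

theorem mem_row {r : Cond} {ξ : Kap} {u : Set Om} {β : Om} (h : r.v (.row ξ) = some (.nd u))
    (hβ : β < r.g) (hu : β ∈ u) : r ∈ rowN ξ β := by
  refine RO.mem_cl.mpr fun q hq => ⟨q, le_rfl, ?_⟩
  obtain ⟨y, hy, hy'⟩ := hq.2.2 _ _ h
  cases y with
  | od η => exact absurd hy' (by simp [Val.res])
  | nd s =>
    simp only [Val.res, Val.nd.injEq] at hy'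
    refine ⟨s, hy, lt_of_lt_of_le hβ hq.1, ?_⟩
    rw [← hy'] at hu
    exact hu.1

theorem mem_row_compl {r : Cond} {ξ : Kap} {u : Set Om} {β : Om}
    (h : r.v (.row ξ) = some (.nd u)) (hβ : β < r.g) (hu : β ∉ u) : r ∈ (rowN ξ β)ᶜ := by
  refine RO.mem_compl.mpr fun q hq hqr => ?_
  obtain ⟨q', hq', s, hs, h1, h2⟩ := RO.mem_cl.mp hqr q le_rfl
  obtain ⟨y, hy, hy'⟩ := (hq'.trans hq).2.2 _ _ h
  rw [hs] at hy
  simp only [Option.some.injEq] at hy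
  rw [← hy] at hy'
  simp only [Val.res, Val.nd.injEq] at hy'
  exact hu (by rw [← hy']; exact ⟨h2, hβ⟩)

theorem opp_compl {a b : BA} {r : Cond} (h : (r ∈ a ∧ r ∈ bᶜ) ∨ (r ∈ aᶜ ∧ r ∈ b)) :
    r ∈ (eqB a b)ᶜ := by
  refine RO.mem_compl.mpr fun q hq hqe => ?_
  obtain ⟨h1, h2⟩ := RO.mem_inf.mp hqe
  rcases h with ⟨ha, hb⟩ | ⟨ha, hb⟩
  · exact RO.mem_compl.mp hb q hq (RO.mem_himp.mp h1 q le_rfl (RO.lower hq ha))
  · exact RO.mem_compl.mp ha q hq (RO.mem_himp.mp h2 q le_rfl (RO.lower hq hb))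

theorem nl : G_LIFT → G_DN → G_NL := by
  intro hL hDN Lx D ξ p s hLx hξ hp
  refine RO.mem_iInf.mpr fun ν => RO.mem_iSup.mpr fun q hq => ?_
  obtain ⟨y, hy, hy'⟩ := hq.2.2 _ _ hp
  obtain ⟨t, rfl⟩ : ∃ t, y = .nd t := by
    cases y with
    | od η => exact absurd hy' (by simp [Val.res])
    | nd t => exact ⟨t, rfl⟩
  have ht : t ∈ q.S := q.v_ok _ _ hy
  -- a larger level
  have hsucc : ∃ γ : Om, q.g < γ := by
    refine ⟨⟨Order.succ (q.g : Ordinal), ?_⟩, ?_⟩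
    · exact (Cardinal.isSuccLimit_omega 1).succ_lt q.g.2
    · exact Subtype.mk_lt_mk.mpr (Order.lt_succ _)
  obtain ⟨γ, hγ⟩ := hsucc
  obtain ⟨q1, hq1, hg1, -⟩ := hL q γ hγ.le
  obtain ⟨q2, hq2, hdec⟩ := RO.mem_or_compl (a := Lx ν q.g) q1
  have hdec' : q2.rs D ∈ Lx ν q.g ∨ q2.rs D ∈ (Lx ν q.g)ᶜ := by
    rcases hdec with h | h
    · exact Or.inl (hLx ν q.g _ h)
    · exact Or.inr (hDN.1 D _ (hLx ν q.g) _ h)
  have hd : q2.rs D ≤ q.rs D := Cond.rs_mono (hq2.trans hq1) D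
  have hds : (q2.rs D).supp ⊆ D := Cond.supp_rs_subset _ _
  have hdg : q.g < (q2.rs D).g := by
    have := hq2.1
    rw [hg1] at this
    exact lt_of_lt_of_le hγ this
  generalize hdd : q2.rs D = d at *
  have hc := cmp_of_le hd hds
  obtain ⟨t', ht', ht''⟩ : ∃ t' ∈ d.S, t' ∩ Iio q.g = t := by
    have h1 : t ∈ (fun s => s ∩ Iio q.g) '' d.S := by
      rw [hc.2.1]; exact ht
    obtain ⟨a, ha, ha'⟩ := h1
    exact ⟨a, ha, ha'⟩
  obtain ⟨s', hs', hs1, hs2⟩ := d.S_spl t' ht' q.g hdg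
  -- a node with prescribed behaviour at `q.g`
  have hch : ∀ P : Prop, ∃ u ∈ d.S, u ∩ Iio q.g = t ∧ (q.g ∈ u ↔ P) := by
    intro P
    by_cases h1 : (q.g ∈ t' ↔ P)
    · exact ⟨t', ht', ht'', h1⟩
    · refine ⟨s', hs', by rw [hs1, ht''], ?_⟩
      by_cases hP : P <;> by_cases h3 : q.g ∈ t' <;> by_cases h4 : q.g ∈ s' <;> simp_all
  obtain ⟨u, hu, hu1, hu2⟩ := hch (d ∈ (Lx ν q.g)ᶜ)
  have hok : Ok (am q d hc).S (.row ξ) (.nd u) := hu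
  set r := upd (am q d hc) (.row ξ) (.nd u) hok with hr
  have hrv : r.v (.row ξ) = some (.nd u) := upd_v_self _ _ _ _
  have hrq : r ≤ q := by
    refine ⟨hc.1, hc.2.1, fun c x hx => ?_⟩
    by_cases h1 : c = .row ξ
    · subst h1
      rw [hy] at hx
      simp only [Option.some.injEq] at hx
      refine ⟨.nd u, hrv, ?_⟩
      rw [← hx]
      simp only [Val.res, hu1]
    · obtain ⟨z, hz, hz'⟩ := (am_le_left hc).2.2 c x hx
      exact ⟨z, by rw [hr, upd_v_ne _ _ _ h1]; exact hz, hz'⟩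
  have hrd : r ≤ d := by
    refine ⟨le_rfl, (le_refl d).2.1, fun c x hx => ?_⟩
    have h1 : c ≠ .row ξ := by
      rintro rfl
      exact hξ (hds (by simp [Cond.supp, hx]))
    obtain ⟨z, hz, hz'⟩ := (am_le_right hc).2.2 c x hx
    exact ⟨z, by rw [hr, upd_v_ne _ _ _ h1]; exact hz, hz'⟩
  refine ⟨r, hrq, q.g, opp_compl ?_⟩
  have hrg : q.g < r.g := hdg
  by_cases hcase : d ∈ (Lx ν q.g)ᶜ
  · exact Or.inl ⟨mem_row hrv hrg (hu2.mpr hcase), RO.lower hrd hcase⟩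
  · have h1 : d ∈ Lx ν q.g := hdec'.resolve_right hcase
    exact Or.inr ⟨mem_row_compl hrv hrg (fun h => hcase (hu2.mp h)), RO.lower hrd h1⟩

end Pool.Agent.Helper97.Ku.PkNL
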